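import Pool.Agent.Q214.KK.Asym

/-!
# The spectral threshold of the Kikuchi matrix tends to zero (every even `r ≥ 4`)

For every even `r ≥ 4` the rescaled spectral threshold of the Kikuchi matrix of level `l` tends to
zero as `l → ∞`, and it is at most `C l ^ (-(r-2)/4)` for every `l ≥ r/2`, the rate conjectured by
Wein, El Alaoui and Moore.  No logarithm is lost: the expected largest eigenvalue of the pure noise
matrix is at most `C * sqrt (l * choose l (r/2)) * n ^ (r/4)` for all large `n`.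
-/

set_option autoImplicit false
open MeasureTheory ProbabilityTheory Matrix Filter Topology

namespace Pool.Agent.Results.MP_d47e08_pr.KikuchiThreshold

noncomputable section

/-- The Kikuchi matrix `M(lam)`, as a function of the Gaussians `Z S`. Its rows and columns are
labelled by the `l`-subsets of `Fin n`. -/
def kikuchi (n l r : ℕ) (lam : ℝ) (Z : Finset (Fin n) → ℝ) :
    Matrix {K : Finset (Fin n) // K.card = l} {K : Finset (Fin n) // K.card = l} ℝ :=
  Matrix.of fun I J => if (symmDiff I.1 J.1).card = r then lam + Z (symmDiff I.1 J.1) else 0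

/-- The largest eigenvalue of a real symmetric matrix: the supremum of the quadratic form over the
unit vectors. -/
def topEv {ι : Type*} [Fintype ι] (A : Matrix ι ι ℝ) : ℝ :=
  sSup {t : ℝ | ∃ v : ι → ℝ, dotProduct v v = 1 ∧ t = dotProduct v (Matrix.mulVec A v)}

/-- The expected largest eigenvalue of `M(lam)`, the `Z S` being independent standard Gaussians. -/
def meanTop (n l r : ℕ) (lam : ℝ) : ℝ :=
  ∫ Z : Finset (Fin n) → ℝ, topEv (kikuchi n l r lam Z)
    ∂(Measure.pi fun _ : Finset (Fin n) => gaussianReal 0 1)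

/-- The number `rho` of the problem. -/
def rho (r l : ℕ) (m : ℝ) : EReal :=
  liminf (fun n : ℕ =>
    ((meanTop n l r (m * (n : ℝ) ^ (-(r : ℝ) / 4)) / meanTop n l r 0 : ℝ) : EReal)) atTop

/-- The rescaled spectral threshold, with the infimum of the empty set equal to infinity. -/
def threshold (r l : ℕ) : ENNReal := ⨅ (m : NNReal) (_ : 1 < rho r l m), (m : ENNReal)

lemma meanTop_eq (n l r : ℕ) (lam : ℝ) : meanTop n l r lam = Pool.Agent.Q214.KK.EL n l r lam := rfl

/-- The lower bound for the ratio, in terms of `r`. -/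
lemma ratio (k l : ℕ) (hk : 1 ≤ k) (hl : k ≤ l) (m : ℝ) (hm : 0 ≤ m) :
    ∀ᶠ n : ℕ in atTop, Pool.Agent.Q214.KK.c2 k * m * (l : ℝ) ^ ((((2 * k : ℕ) : ℝ) - 2) / 4)
      ≤ meanTop n l (2 * k) (m * (n : ℝ) ^ (-((2 * k : ℕ) : ℝ) / 4)) / meanTop n l (2 * k) 0 := by
  have h := Pool.Agent.Q214.KK.ratio_lower' k l hk hl m hm
  have e : (((k : ℝ) - 1) / 2) = (((2 * k : ℕ) : ℝ) - 2) / 4 := by push_cast; ring
  rw [e] at h
  exact h

lemma rho_ge (k l : ℕ) (hk : 1 ≤ k) (hl : k ≤ l) (m : ℝ) (hm : 0 ≤ m) :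
    ((Pool.Agent.Q214.KK.c2 k * m * (l : ℝ) ^ ((((2 * k : ℕ) : ℝ) - 2) / 4) : ℝ) : EReal)
      ≤ rho (2 * k) l m := by
  unfold rho
  apply le_liminf_of_le
  · exact isCobounded_ge_of_top
  · filter_upwards [ratio k l hk hl m hm] with n hn
    exact EReal.coe_le_coe_iff.mpr hn

lemma threshold_le (k l : ℕ) (hk : 1 ≤ k) (hl : k ≤ l) :
    threshold (2 * k) l ≤ ENNReal.ofReal (2 / Pool.Agent.Q214.KK.c2 k *
      (l : ℝ) ^ (-((((2 * k : ℕ) : ℝ) - 2) / 4))) := by
  have hl0 : (0 : ℝ) < l := by exact_mod_cast (lt_of_lt_of_le hk hl)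
  have hc := Pool.Agent.Q214.KK.c2_pos k hk
  set m : ℝ := 2 / Pool.Agent.Q214.KK.c2 k * (l : ℝ) ^ (-((((2 * k : ℕ) : ℝ) - 2) / 4)) with hmd
  have hm : 0 ≤ m := by rw [hmd]; positivity
  have h1 := rho_ge k l hk hl m hm
  have h2 : Pool.Agent.Q214.KK.c2 k * m * (l : ℝ) ^ ((((2 * k : ℕ) : ℝ) - 2) / 4) = 2 := by
    rw [hmd, Real.rpow_neg hl0.le]
    have : (0 : ℝ) < (l : ℝ) ^ ((((2 * k : ℕ) : ℝ) - 2) / 4) := by positivity
    field_simp
  rw [h2] at h1
  have h3 : (1 : EReal) < rho (2 * k) l ((⟨m, hm⟩ : NNReal) : ℝ) := by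
    refine lt_of_lt_of_le ?_ h1
    exact_mod_cast (one_lt_two : (1 : ℝ) < 2)
  unfold threshold
  refine (iInf₂_le (⟨m, hm⟩ : NNReal) h3).trans (le_of_eq ?_)
  rw [ENNReal.ofReal_eq_coe_nnreal hm]
  rfl

lemma tendsto_pow (k : ℕ) (hk : 2 ≤ k) :
    Tendsto (fun l : ℕ => (l : ℝ) ^ ((((2 * k : ℕ) : ℝ) - 2) / 4)) atTop atTop := by
  have h : 0 < (((2 * k : ℕ) : ℝ) - 2) / 4 := by
    have : (2 : ℝ) ≤ k := by exact_mod_cast hk
    push_cast
    linarith
  exact (tendsto_rpow_atTop h).comp tendsto_natCast_atTop_atTop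

/-- **Main theorem.**
(1) For every even `r ≥ 4` the threshold tends to zero as `l → ∞` (the conjecture of Wein,
El Alaoui and Moore).
(2) The same in the form of the frozen statement, with `4 ≤ r` in place of `2 ≤ r`.
(3) For every even `r ≥ 2` there is `C` such that for every `l ≥ r / 2`: the threshold is at most
`C l ^ (-(r-2)/4)`; `rho (m)` is at least `C⁻¹ m l ^ ((r-2)/4)` for every `m ≥ 0`; and for all
large `n` the expected largest eigenvalue of the pure noise matrix is positive and at most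
`C sqrt (l choose (l, r/2)) n ^ (r/4)`. -/
theorem result :
    (∀ r : ℕ, 4 ≤ r → Even r → Tendsto (fun l : ℕ => threshold r l) atTop (𝓝 0)) ∧
    (∀ r : ℕ, 4 ≤ r → Even r → ∀ δ : ℝ, 0 < δ → ∀ᶠ l : ℕ in atTop, ∀ m : ℝ, δ < m →
      ∃ ε : ℝ, 0 < ε ∧ ∀ᶠ n : ℕ in atTop,
        1 + ε ≤ meanTop n l r (m * (n : ℝ) ^ (-(r : ℝ) / 4)) / meanTop n l r 0) ∧
    (∀ r : ℕ, 2 ≤ r → Even r → ∃ C : ℝ, 0 < C ∧ ∀ l : ℕ, r ≤ 2 * l →
      threshold r l ≤ ENNReal.ofReal (C * (l : ℝ) ^ (-(((r : ℝ) - 2) / 4))) ∧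
      (∀ m : ℝ, 0 ≤ m → ((C⁻¹ * m * (l : ℝ) ^ (((r : ℝ) - 2) / 4) : ℝ) : EReal) ≤ rho r l m) ∧
      ∀ᶠ n : ℕ in atTop, 0 < meanTop n l r 0 ∧
        meanTop n l r 0 ≤ C * √((l : ℝ) * (l.choose (r / 2) : ℝ)) * (n : ℝ) ^ ((r : ℝ) / 4)) := by
  refine ⟨?_, ?_, ?_⟩
  · intro r hr he
    obtain ⟨k, hk⟩ := he
    have hk2 : 2 ≤ k := by omega
    obtain rfl : r = 2 * k := by omega
    have hc := Pool.Agent.Q214.KK.c2_pos k (by omega)
    have h1 : Tendsto (fun l : ℕ => ENNReal.ofReal (2 / Pool.Agent.Q214.KK.c2 k *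
        (l : ℝ) ^ (-((((2 * k : ℕ) : ℝ) - 2) / 4)))) atTop (𝓝 0) := by
      have h2 : Tendsto (fun l : ℕ => 2 / Pool.Agent.Q214.KK.c2 k *
          (l : ℝ) ^ (-((((2 * k : ℕ) : ℝ) - 2) / 4))) atTop
          (𝓝 (2 / Pool.Agent.Q214.KK.c2 k * 0)) := by
        apply Tendsto.const_mul
        have h3 := (tendsto_pow k hk2).inv_tendsto_atTop
        refine h3.congr fun l => ?_
        simp only [Pi.inv_apply]
        rw [Real.rpow_neg (Nat.cast_nonneg l)]
      rw [mul_zero] at h2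
      have h4 := ENNReal.tendsto_ofReal h2
      rwa [ENNReal.ofReal_zero] at h4
    refine tendsto_of_tendsto_of_tendsto_of_le_of_le' tendsto_const_nhds h1
      (Eventually.of_forall fun _ => zero_le) ?_
    filter_upwards [eventually_ge_atTop k] with l hl
    exact threshold_le k l (by omega) hl
  · intro r hr he δ hδ
    obtain ⟨k, hk⟩ := he
    have hk2 : 2 ≤ k := by omega
    obtain rfl : r = 2 * k := by omega
    have hc := Pool.Agent.Q214.KK.c2_pos k (by omega)
    filter_upwards [eventually_ge_atTop k,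
      (tendsto_pow k hk2).eventually_ge_atTop (2 / (Pool.Agent.Q214.KK.c2 k * δ))] with l hl hl2
    intro m hm
    refine ⟨1, one_pos, ?_⟩
    filter_upwards [ratio k l (by omega) hl m (by linarith)] with n hn
    refine le_trans ?_ hn
    rw [div_le_iff₀ (by positivity)] at hl2
    have h3 : (l : ℝ) ^ ((((2 * k : ℕ) : ℝ) - 2) / 4) * (Pool.Agent.Q214.KK.c2 k * δ)
        ≤ (l : ℝ) ^ ((((2 * k : ℕ) : ℝ) - 2) / 4) * (Pool.Agent.Q214.KK.c2 k * m) := by
      apply mul_le_mul_of_nonneg_left _ (by positivity)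
      exact mul_le_mul_of_nonneg_left hm.le hc.le
    linarith
  · intro r hr he
    obtain ⟨k, hk⟩ := he
    have hk1 : 1 ≤ k := by omega
    obtain rfl : r = 2 * k := by omega
    have hc := Pool.Agent.Q214.KK.c2_pos k hk1
    have hk0 : (0 : ℝ) < k := by exact_mod_cast hk1
    set c := Pool.Agent.Q214.KK.c2 k with hcdef
    set B : ℝ := 2 * √(Real.exp 8 * (4 * (Real.exp 1 * 2 ^ k)) * (1 / k)) with hB
    have hB0 : 0 ≤ B := by positivity
    refine ⟨2 / c + B, by positivity, ?_⟩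
    intro l hl
    have hl' : k ≤ l := by omega
    have hl0 : (0 : ℝ) < l := by exact_mod_cast (lt_of_lt_of_le hk1 hl')
    refine ⟨?_, ?_, ?_⟩
    · refine (threshold_le k l hk1 hl').trans ?_
      apply ENNReal.ofReal_le_ofReal
      apply mul_le_mul_of_nonneg_right _ (by positivity)
      linarith
    · intro m hm
      refine le_trans ?_ (rho_ge k l hk1 hl' m hm)
      apply EReal.coe_le_coe_iff.mpr
      apply mul_le_mul_of_nonneg_right _ (by positivity)
      apply mul_le_mul_of_nonneg_right _ hm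
      rw [inv_le_comm₀ (by positivity) hc]
      have : c⁻¹ ≤ 2 / c := by
        rw [div_eq_mul_inv]
        have : 0 < c⁻¹ := by positivity
        linarith
      linarith
    · filter_upwards [Pool.Agent.Q214.KK.noise k l hk1 hl', eventually_ge_atTop (l + k)]
        with n h1 h2
      refine ⟨Pool.Agent.Q214.KK.EL_zero_pos k hk1 hl' h2, ?_⟩
      have hn0 : (0 : ℝ) < n := by
        have : 0 < n := by omega
        exact_mod_cast this
      have e1 : 2 * k / 2 = k := by omega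
      have e2 : (n : ℝ) ^ (((2 * k : ℕ) : ℝ) / 4) = √((n : ℝ) ^ k) := by
        rw [Real.sqrt_eq_rpow, ← Real.rpow_natCast, ← Real.rpow_mul hn0.le]
        congr 1
        push_cast
        ring
      rw [e1, e2]
      have e3 : 2 * √(Real.exp 8 * (4 * ((l.choose k : ℝ) *
          (Real.exp 1 * (2 * (n : ℝ)) ^ k)) * ((l : ℝ) / k)))
          = B * √((l : ℝ) * (l.choose k : ℝ)) * √((n : ℝ) ^ k) := by
        have e4 : B * √((l : ℝ) * (l.choose k : ℝ)) * √((n : ℝ) ^ k)
            = 2 * (√(Real.exp 8 * (4 * (Real.exp 1 * 2 ^ k)) * (1 / k))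
              * √((l : ℝ) * (l.choose k : ℝ)) * √((n : ℝ) ^ k)) := by rw [hB]; ring
        rw [e4, ← Real.sqrt_mul (by positivity), ← Real.sqrt_mul (by positivity)]
        congr 2
        rw [mul_pow]
        ring
      have h3 : meanTop n l (2 * k) 0 ≤ B * √((l : ℝ) * (l.choose k : ℝ)) * √((n : ℝ) ^ k) := by
        rw [← e3]
        exact h1
      refine h3.trans ?_
      apply mul_le_mul_of_nonneg_right _ (Real.sqrt_nonneg _)
      apply mul_le_mul_of_nonneg_right _ (Real.sqrt_nonneg _)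
      have : 0 ≤ 2 / c := by positivity
      linarith

end

end Pool.Agent.Results.MP_d47e08_pr.KikuchiThreshold
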