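import Pool.Agent.Q289.KK.Final

/-!
# The matrix case `r = 2`: the spectral threshold of the Kikuchi matrix is at least `1`

Definitions as in the problem file, for `r = 2`.  The `ℓ`-subsets of `[n]` index the rows and
columns of the Kikuchi matrix, the weights are independent standard Gaussians indexed by the finite
sets `S ⊆ [n]` (only the `r`-element sets occur in the matrix), the top eigenvalue of a real
symmetric matrix is the supremum of its Rayleigh quotient over unit vectors, and the threshold is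
`inf {μ ≥ 0 : ρ(μ) > 1}` in `[0, ∞]`, where `ρ(μ)` is the lower limit of the ratio of the expected
top eigenvalues at signal strengths `μ n ^ (-r/4)` and `0`.
-/

set_option autoImplicit false

namespace Pool.Agent.Results.MP_d47e08_pr.MatrixCase

open MeasureTheory ProbabilityTheory Filter Topology

/-- the `ℓ`-subsets of `[n]` -/
abbrev Subsets (n ℓ : ℕ) : Type := {K : Finset (Fin n) // K.card = ℓ}

/-- the Kikuchi matrix `M(lam)` with weights `Z` -/
noncomputable def kikuchi {n : ℕ} (r ℓ : ℕ) (lam : ℝ) (Z : Finset (Fin n) → ℝ) :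
    Matrix (Subsets n ℓ) (Subsets n ℓ) ℝ :=
  Matrix.of fun I J : Subsets n ℓ =>
    if (symmDiff I.1 J.1).card = r then lam + Z (symmDiff I.1 J.1) else 0

/-- the largest eigenvalue of a real symmetric matrix -/
noncomputable def lambdaMax {ι : Type} [Fintype ι] (M : Matrix ι ι ℝ) : ℝ :=
  sSup {t : ℝ | ∃ v : ι → ℝ, dotProduct v v = 1 ∧ t = dotProduct v (M.mulVec v)}

/-- independent standard Gaussian weights -/
noncomputable def weights (n : ℕ) : Measure (Finset (Fin n) → ℝ) :=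
  Measure.pi fun _ : Finset (Fin n) => gaussianReal 0 1

/-- the expectation of the largest eigenvalue of the Kikuchi matrix -/
noncomputable def meanTop (n r ℓ : ℕ) (lam : ℝ) : ℝ :=
  ∫ Z, lambdaMax (kikuchi r ℓ lam Z) ∂(weights n)

/-- `ρ(μ)`: the lower limit, as `n → ∞`, of the ratio of the expected largest eigenvalues at the
signal strengths `μ n ^ (-r/4)` and `0` -/
noncomputable def rho (r ℓ : ℕ) (μ : ℝ) : EReal :=
  liminf (fun n : ℕ =>
    ((meanTop n r ℓ (μ * (n : ℝ) ^ (-(r : ℝ) / 4)) / meanTop n r ℓ 0 : ℝ) : EReal)) atTop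

/-- the rescaled spectral threshold `inf {μ ≥ 0 : ρ(μ) > 1}` (with `inf ∅ = ∞`) -/
noncomputable def threshold (r ℓ : ℕ) : ENNReal :=
  sInf {x : ENNReal | ∃ μ : ℝ, 0 ≤ μ ∧ 1 < rho r ℓ μ ∧ x = ENNReal.ofReal μ}

/-- For `r = 2` and every `ℓ ≥ 1` the threshold is at least `1`; hence it does not tend to zero as
`ℓ → ∞`.  Moreover, for every `ℓ ≥ 1`, every `μ ∈ [0, 1)` and every `ε > 0`, the ratio of the
expected top eigenvalues at signal strengths `μ n ^ (-1/2)` and `0` is at most `1 + ε` for all large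
`n`. -/
theorem result :
    (∀ ℓ : ℕ, 1 ≤ ℓ → 1 ≤ threshold 2 ℓ) ∧
    (¬ Tendsto (fun ℓ : ℕ => threshold 2 ℓ) atTop (𝓝 0)) ∧
    (∀ ℓ : ℕ, 1 ≤ ℓ → ∀ μ : ℝ, 0 ≤ μ → μ < 1 → ∀ ε : ℝ, 0 < ε → ∀ᶠ n : ℕ in atTop,
      meanTop n 2 ℓ (μ * (n : ℝ) ^ (-((2 : ℕ) : ℝ) / 4)) / meanTop n 2 ℓ 0 ≤ 1 + ε) := by
  have h := Q289.KK.main_final 2 le_rfl even_two
  refine ⟨fun ℓ hl => h.2.2 rfl ℓ hl, ?_, fun ℓ hl μ h0 h1 ε hε =>
    Q289.KK.two_final ℓ hl μ h0 h1 ε hε⟩
  intro ht
  have h4 : 4 ≤ 2 := h.2.1.1 ht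
  omega

end Pool.Agent.Results.MP_d47e08_pr.MatrixCase
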